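import Mathlib

set_option autoImplicit false

/-!
# Project SX, the interface `Theta`

All the analysis on `ℂ × ℂ` which is needed for the construction of the closed four-manifold: the
defining function `F` of the periodic curve `C`, the sixth roots `e` of its multipliers on a
sublattice of index `N` (36 or 1296), the almost complex structure, and two sections for `c₁²`.
-/

namespace Pool.Agent.Helper29.SX

open Filter Topology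

/-- The derivative of `f` in the direction of the conjugate variable. -/
noncomputable def dbar (f : ℂ → ℂ) (x : ℂ) : ℂ :=
  (fderiv ℝ f x 1 + Complex.I * fderiv ℝ f x Complex.I) / 2

/-- A regular zero of `F`: near `p` the function is a unit times `y - f x`. The function `a`
(the almost complex structure is given by the (1,0)-forms `dx` and `dy - a dx̄`) is such that the
zero set is an almost complex curve near `p`. -/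
def RegZero (F a : ℂ × ℂ → ℂ) (p : ℂ × ℂ) : Prop :=
  ∃ (f : ℂ → ℂ) (h : ℂ × ℂ → ℂ), ContDiffAt ℝ (⊤ : ℕ∞) f p.1 ∧ ContDiffAt ℝ (⊤ : ℕ∞) h p ∧
    h p ≠ 0 ∧ f p.1 = p.2 ∧ (∀ᶠ q in 𝓝 p, F q = h q * (q.2 - f q.1)) ∧
    ∀ᶠ q in 𝓝 p, a q = dbar f q.1

/-- The interface. -/
structure Theta where
  /-- the big lattice, the torus is `(ℂ × ℂ) / Lam` -/
  Lam : AddSubgroup (ℂ × ℂ)
  /-- the sublattice -/
  Lam' : AddSubgroup (ℂ × ℂ)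
  le : Lam' ≤ Lam
  /-- the index of the sublattice -/
  N : ℕ
  N_pos : 0 < N
  index : Lam'.relIndex Lam = N
  disc : ∃ r : ℝ, 0 < r ∧ ∀ l ∈ Lam, ‖l‖ < r → l = 0
  cocompact : ∃ K : Set (ℂ × ℂ), IsCompact K ∧ ∀ p, ∃ l ∈ Lam', p - l ∈ K
  /-- the defining function -/
  F : ℂ × ℂ → ℂ
  F_smooth : ContDiff ℝ (⊤ : ℕ∞) F
  /-- the sixth roots of the multipliers; only `e l` with `l ∈ Lam'` is used -/
  e : ℂ × ℂ → ℂ × ℂ → ℂ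
  e_smooth : ∀ l ∈ Lam', ContDiff ℝ (⊤ : ℕ∞) (e l)
  e_norm : ∀ l ∈ Lam', ∀ p, ‖e l p‖ = 1
  e_zero : ∀ p, e 0 p = 1
  e_add : ∀ l ∈ Lam', ∀ l' ∈ Lam', ∀ p, e (l + l') p = e l (p + l') * e l' p
  F_add : ∀ l ∈ Lam', ∀ p, F (p + l) = e l p ^ 6 * F p
  /-- the zero set is invariant for the big lattice -/
  F_zero : ∀ l ∈ Lam, ∀ p, F p = 0 → F (p + l) = 0
  /-- the two six-fold points and the two branch points -/
  c : Fin 2 → ℂ × ℂ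
  b : Fin 2 → ℂ × ℂ
  /-- the slopes of the six lines through `c k` -/
  s : Fin 2 → Fin 6 → ℂ
  s_inj : ∀ k, Function.Injective (s k)
  κ : Fin 2 → ℂ
  κ_ne : ∀ k, κ k ≠ 0
  /-- the radius of the neighbourhoods of the special points -/
  ρ : ℝ
  ρ_pos : 0 < ρ
  c_sep : ∀ k k', ∀ l ∈ Lam, ‖c k - c k' - l‖ < 4 * ρ → k = k' ∧ l = 0
  b_sep : ∀ k k', ∀ l ∈ Lam, ‖b k - b k' - l‖ < 4 * ρ → k = k' ∧ l = 0
  cb_sep : ∀ k k', ∀ l ∈ Lam, 4 * ρ ≤ ‖c k - b k' - l‖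
  F_c : ∀ k, ∀ l ∈ Lam, ∀ v : ℂ × ℂ, ‖v‖ < ρ → F (c k + l + v) = ∏ j, (v.2 - s k j * v.1)
  F_b : ∀ k, ∀ l ∈ Lam, ∀ v : ℂ × ℂ, ‖v‖ < ρ → F (b k + l + v) = v.2 ^ 2 - κ k * v.1
  /-- the almost complex structure: (1,0)-forms `dx` and `dy - a dx̄` -/
  a : ℂ × ℂ → ℂ
  a_smooth : ContDiff ℝ (⊤ : ℕ∞) a
  a_add : ∀ l ∈ Lam, ∀ p, a (p + l) = a p
  a_c : ∀ k, ∀ l ∈ Lam, ∀ v : ℂ × ℂ, ‖v‖ < ρ → a (c k + l + v) = 0
  a_b : ∀ k, ∀ l ∈ Lam, ∀ v : ℂ × ℂ, ‖v‖ < ρ → a (b k + l + v) = 0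
  K : ℝ
  a_lt : ∀ p, ‖a p‖ ^ 2 < K
  /-- all the other zeros are regular -/
  reg : ∀ p, F p = 0 → (∀ k, ∀ l ∈ Lam, p ≠ c k + l) → (∀ k, ∀ l ∈ Lam, p ≠ b k + l) →
    RegZero F a p
  /-- a real connection form: `d e_l = i (A(p+l) - A(p)) e_l`; it vanishes near the special
  points -/
  A : ℂ × ℂ → (ℂ × ℂ →L[ℝ] ℝ)
  A_smooth : ContDiff ℝ (⊤ : ℕ∞) A
  A_add : ∀ l ∈ Lam', ∀ p v,
    fderiv ℝ (e l) p v = Complex.I * ((A (p + l) v - A p v : ℝ) : ℂ) * e l p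
  A_c : ∀ k, ∀ l ∈ Lam, ∀ v : ℂ × ℂ, ‖v‖ < ρ → A (c k + l + v) = 0
  A_b : ∀ k, ∀ l ∈ Lam, ∀ v : ℂ × ℂ, ‖v‖ < ρ → A (b k + l + v) = 0
  /-- two sections of the fifth power of the line bundle -/
  G : Fin 2 → ℂ × ℂ → ℂ
  G_smooth : ∀ i, ContDiff ℝ (⊤ : ℕ∞) (G i)
  G_add : ∀ i, ∀ l ∈ Lam', ∀ p, G i (p + l) = e l p ^ 30 * G i p
  ρ' : ℝ
  ρ'_pos : 0 < ρ'
  ρ'_lt : ρ' < ρ
  G_ne : ∀ i k, ∀ l ∈ Lam, ∀ v : ℂ × ℂ, ‖v‖ < ρ' → G i (c k + l + v) ≠ 0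
  /-- their common zeros are nondegenerate, positive and off the curve -/
  G_zero : ∀ p, G 0 p = 0 → G 1 p = 0 →
    F p ≠ 0 ∧ 0 < (fderiv ℝ (fun q => (G 0 q, G 1 q)) p).det
  G_count : ((QuotientAddGroup.mk : ℂ × ℂ → (ℂ × ℂ) ⧸ Lam') ''
    {p | G 0 p = 0 ∧ G 1 p = 0}).ncard = N * 1550

end Pool.Agent.Helper29.SX
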