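import Mathlib

set_option autoImplicit false

/-!
# Smooth logarithms, periodic functions, additive cocycles
-/

namespace Pool.Agent.Helper29.SX

open Filter Topology

variable {E : Type} [NormedAddCommGroup E] [NormedSpace ℝ E]

/-- A smooth nonvanishing function on a convex open set has a smooth logarithm. -/
theorem exists_smooth_log {U : Set E} (hU : IsOpen U) (hc : Convex ℝ U) (hne : U.Nonempty)
    {g : E → ℂ} (hg : ContDiffOn ℝ (⊤ : ℕ∞) g U) (h0 : ∀ p ∈ U, g p ≠ 0) :
    ∃ m : E → ℂ, ContDiffOn ℝ (⊤ : ℕ∞) m U ∧ ∀ p ∈ U, Complex.exp (m p) = g p := by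
  have hsc : IsSimplyConnected U := by
    have := hc.contractibleSpace hne
    exact (inferInstance : SimplyConnectedSpace U)
  obtain ⟨m, hm, hme⟩ := Complex.exists_continuousOn_eqOn_exp_comp hsc hU hg.continuousOn (by
    rintro ⟨p, hp, hp0⟩
    exact h0 p hp hp0)
  refine ⟨m, ?_, fun p hp => hme hp⟩
  intro p hp
  have hgp := h0 p hp
  have hUp := hU.mem_nhds hp
  have hga : ContDiffAt ℝ (⊤ : ℕ∞) g p := hg.contDiffAt hUp
  have h1 : ContDiffAt ℝ (⊤ : ℕ∞) (fun q => m p + Complex.log (g q / g p)) p := by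
    have h2 : ContDiffAt ℝ (⊤ : ℕ∞) (fun q => g q / g p) p := hga.div_const _
    have h3 : ContDiffAt ℝ (⊤ : ℕ∞) Complex.log (g p / g p) := by
      rw [div_self hgp]
      exact (Complex.contDiffAt_log (by simp)).restrict_scalars ℝ
    exact contDiffAt_const.add (ContDiffAt.comp (g := Complex.log) p h3 h2)
  have h4 : ContDiffAt ℝ (⊤ : ℕ∞) m p := by
    refine h1.congr_of_eventuallyEq ?_
    have h5 : ∀ᶠ q in 𝓝 p, |(m q - m p).im| < Real.pi := by
      have h6 : ContinuousAt (fun q => |(m q - m p).im|) p :=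
        (Complex.continuous_im.continuousAt.comp
          ((hm.continuousAt hUp).sub continuousAt_const)).abs
      refine h6.eventually_lt_const ?_
      simpa using Real.pi_pos
    filter_upwards [h5, hUp] with q hq hqU
    rw [← hme hqU, ← hme hp]
    show m q = m p + Complex.log (Complex.exp (m q) / Complex.exp (m p))
    rw [← Complex.exp_sub, Complex.log_exp]
    · ring
    · have := (abs_lt.mp hq).1
      linarith
    · exact (abs_lt.mp hq).2.le
  exact h4.contDiffWithinAt

theorem exists_smooth_log' {g : E → ℂ} (hg : ContDiff ℝ (⊤ : ℕ∞) g) (h0 : ∀ p, g p ≠ 0) :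
    ∃ m : E → ℂ, ContDiff ℝ (⊤ : ℕ∞) m ∧ ∀ p, Complex.exp (m p) = g p := by
  obtain ⟨m, hm, hme⟩ := exists_smooth_log isOpen_univ convex_univ Set.univ_nonempty
    hg.contDiffOn (fun p _ => h0 p)
  exact ⟨m, contDiffOn_univ.mp hm, fun p => hme p (Set.mem_univ p)⟩

/-- `L` is a discrete subgroup. -/
def DiscE (L : AddSubgroup E) : Prop := ∃ r : ℝ, 0 < r ∧ ∀ l ∈ L, ‖l‖ < r → l = 0

/-- The quotient by `L` is compact. -/
def CocE (L : AddSubgroup E) : Prop := ∃ K : Set E, IsCompact K ∧ ∀ p, ∃ l ∈ L, p - l ∈ K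

theorem DiscE.isClosed {L : AddSubgroup E} (h : DiscE L) : IsClosed (L : Set E) ∧
    DiscreteTopology L := by
  obtain ⟨r, hr, h⟩ := h
  have : DiscreteTopology L := by
    rw [discreteTopology_iff_isOpen_singleton_zero]
    refine ⟨Metric.ball 0 r, Metric.isOpen_ball, ?_⟩
    ext l
    simp only [Set.mem_preimage, Metric.mem_ball, dist_zero_right, Set.mem_singleton_iff]
    constructor
    · intro hl
      exact Subtype.ext (h l l.2 hl)
    · intro hl
      rw [hl]
      simpa using hr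
  exact ⟨AddSubgroup.isClosed_of_discrete, this⟩

theorem DiscE.finite [FiniteDimensional ℝ E] {L : AddSubgroup E} (h : DiscE L) (R : ℝ) :
    Set.Finite {l : L | ‖(l : E)‖ ≤ R} := by
  obtain ⟨h1, h2⟩ := h.isClosed
  have h3 : IsCompact ((L : Set E) ∩ Metric.closedBall 0 R) :=
    (isCompact_closedBall 0 R).inter_left h1
  have h4 : IsCompact {l : L | ‖(l : E)‖ ≤ R} := by
    have h5 : Topology.IsClosedEmbedding (Subtype.val : L → E) :=
      h1.isClosedEmbedding_subtypeVal
    have h6 := h5.isCompact_preimage (isCompact_closedBall (0 : E) R)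
    convert h6 using 1
    ext l
    simp
  exact h4.finite_of_discrete

section sums

variable [FiniteDimensional ℝ E] {W : Type} [NormedAddCommGroup W] [NormedSpace ℝ W]
  {L : AddSubgroup E}

/-- The sum over the lattice of the translates of a function with bounded support, with smooth
coefficients, is smooth and locally finite. -/
theorem locallyFinite_translates (hL : DiscE L) {ψ : E → ℝ} (hψ : HasCompactSupport ψ) :
    LocallyFinite fun l : L => Function.support fun p : E => ψ (p + l) := by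
  intro p
  obtain ⟨R, hR⟩ := hψ.isCompact.isBounded.subset_closedBall (0 : E)
  refine ⟨Metric.ball p 1, Metric.ball_mem_nhds p one_pos, ?_⟩
  refine (hL.finite (R + ‖p‖ + 1)).subset ?_
  rintro l ⟨q, hq1, hq2⟩
  have h1 : q + (l : E) ∈ Metric.closedBall (0 : E) R := hR (subset_tsupport _ hq1)
  rw [mem_closedBall_zero_iff] at h1
  have h2 : ‖q - p‖ < 1 := by
    rw [← dist_eq_norm]
    exact hq2
  show ‖(l : E)‖ ≤ R + ‖p‖ + 1
  have h3 : (l : E) = (q + l) - (q - p) - p := by abel
  rw [h3]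
  have h4 := norm_sub_le ((q + l) - (q - p)) p
  have h5 := norm_sub_le (q + (l : E)) (q - p)
  linarith

theorem contDiff_translates (hL : DiscE L) {ψ : E → ℝ} (hψ : HasCompactSupport ψ)
    (hψs : ContDiff ℝ (⊤ : ℕ∞) ψ) {d : L → E → W} (hd : ∀ l, ContDiff ℝ (⊤ : ℕ∞) (d l)) :
    ContDiff ℝ (⊤ : ℕ∞) fun p => ∑ᶠ l : L, ψ (p + l) • d l p := by
  rw [← contMDiff_iff_contDiff]
  refine contMDiff_finsum (fun l => ?_) ?_
  · rw [contMDiff_iff_contDiff]
    exact (hψs.comp (contDiff_id.add contDiff_const)).smul (hd l)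
  · refine (locallyFinite_translates hL hψ).subset fun l p hp => ?_
    intro h0
    apply hp
    show ψ (p + l) • d l p = 0
    have h0' : ψ (p + l) = 0 := h0
    rw [h0', zero_smul]

theorem finite_translates (hL : DiscE L) {ψ : E → ℝ} (hψ : HasCompactSupport ψ) (p : E) :
    (Function.support fun l : L => ψ (p + l)).Finite :=
  (locallyFinite_translates hL hψ).point_finite p

theorem finite_translates' (hL : DiscE L) {ψ : E → ℝ} (hψ : HasCompactSupport ψ) (p : E)
    (d : L → W) : (Function.support fun l : L => ψ (p + l) • d l).Finite := by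
  refine (finite_translates hL hψ p).subset fun l hl h0 => hl ?_
  show ψ (p + l) • d l = 0
  have h0' : ψ (p + l) = 0 := h0
  rw [h0', zero_smul]

/-- A partition of unity by the translates of one function. -/
theorem exists_unity (hL : DiscE L) (hK : CocE L) :
    ∃ ρ : E → ℝ, HasCompactSupport ρ ∧ ContDiff ℝ (⊤ : ℕ∞) ρ ∧ ∀ p, ∑ᶠ l : L, ρ (p + l) = 1 := by
  obtain ⟨K, hKc, hK⟩ := hK
  obtain ⟨R, hR⟩ := hKc.isBounded.subset_closedBall (0 : E)
  let ψ : ContDiffBump (0 : E) := ⟨|R| + 1, |R| + 2, by positivity, by linarith⟩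
  have hψc : HasCompactSupport (ψ : E → ℝ) := ψ.hasCompactSupport
  have hψs : ContDiff ℝ (⊤ : ℕ∞) (ψ : E → ℝ) := ψ.contDiff
  let S : E → ℝ := fun p => ∑ᶠ l : L, ψ (p + l) • (1 : ℝ)
  have hSs : ContDiff ℝ (⊤ : ℕ∞) S := contDiff_translates hL hψc hψs fun _ => contDiff_const
  have hSpos : ∀ p, 0 < S p := by
    intro p
    obtain ⟨l, hl, hlK⟩ := hK p
    show 0 < ∑ᶠ l : L, ψ (p + l) • (1 : ℝ)
    refine finsum_pos (fun l => ?_) ⟨⟨-l, L.neg_mem hl⟩, ?_⟩ (finite_translates' hL hψc p _)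
    · rw [smul_eq_mul, mul_one]
      exact ψ.nonneg
    · rw [smul_eq_mul, mul_one]
      refine ψ.pos_of_mem_ball ?_
      rw [mem_ball_zero_iff]
      have h1 := hR hlK
      rw [mem_closedBall_zero_iff] at h1
      show ‖p + -l‖ < |R| + 2
      rw [← sub_eq_add_neg]
      have := le_abs_self R
      linarith
  have hSper : ∀ (l : L) p, S (p + l) = S p := by
    intro l p
    show ∑ᶠ m : L, ψ (p + l + m) • (1 : ℝ) = ∑ᶠ m : L, ψ (p + m) • (1 : ℝ)
    refine Eq.trans (finsum_congr fun m => ?_) (finsum_comp_equiv (Equiv.addLeft l)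
      (f := fun m : L => ψ (p + m) • (1 : ℝ)))
    show _ = ψ (p + ((l + m : L) : E)) • (1 : ℝ)
    rw [AddSubgroup.coe_add, add_assoc]
  refine ⟨fun p => ψ p / S p, ?_, ?_, ?_⟩
  · exact HasCompactSupport.mul_right (f := (ψ : E → ℝ)) (f' := fun p => (S p)⁻¹) hψc
  · exact hψs.div hSs fun p => (hSpos p).ne'
  · intro p
    have h1 : ∀ l : L, ψ (p + l) / S (p + l) = ψ (p + l) • (1 : ℝ) * (S p)⁻¹ := by
      intro l
      rw [hSper, smul_eq_mul, mul_one, div_eq_mul_inv]
    show ∑ᶠ l : L, ψ (p + l) / S (p + l) = 1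
    rw [finsum_congr h1, ← finsum_mul]
    exact mul_inv_cancel₀ (hSpos p).ne'

/-- **An additive cocycle is a coboundary.** -/
theorem exists_coboundary (hL : DiscE L) (hK : CocE L) {d : L → E → W}
    (hd : ∀ l, ContDiff ℝ (⊤ : ℕ∞) (d l))
    (hadd : ∀ l l' p, d (l + l') p = d l (p + l') + d l' p) :
    ∃ k : E → W, ContDiff ℝ (⊤ : ℕ∞) k ∧ ∀ (l : L) p, k (p + l) - k p = d l p := by
  obtain ⟨ρ, hρc, hρs, hρ⟩ := exists_unity hL hK
  refine ⟨fun p => -∑ᶠ m : L, ρ (p + m) • d m p, (contDiff_translates hL hρc hρs hd).neg, ?_⟩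
  intro l p
  have h1 : ∑ᶠ m : L, ρ (p + l + m) • d m (p + l) =
      ∑ᶠ m : L, (ρ (p + m) • d m p - ρ (p + m) • d l p) := by
    refine Eq.trans (finsum_congr fun m => ?_) (finsum_comp_equiv (Equiv.addRight l)
      (f := fun m : L => ρ (p + m) • d m p - ρ (p + m) • d l p))
    show ρ (p + l + m) • d m (p + l) = ρ (p + ((m + l : L) : E)) • d (m + l) p -
      ρ (p + ((m + l : L) : E)) • d l p
    rw [← smul_sub, hadd m l p, add_sub_cancel_right, AddSubgroup.coe_add]
    congr 2
    abel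
  show -∑ᶠ m : L, ρ (p + l + m) • d m (p + l) - -∑ᶠ m : L, ρ (p + m) • d m p = d l p
  rw [h1, finsum_sub_distrib (finite_translates' hL hρc p _) (finite_translates' hL hρc p _)]
  have h2 : ∑ᶠ m : L, ρ (p + m) • d l p = d l p := by
    rw [← finsum_smul, hρ, one_smul]
  rw [h2]
  abel

end sums

end Pool.Agent.Helper29.SX
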