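import Mathlib

set_option autoImplicit false

/-!
# Discrete parallel transport

A smooth, uniformly continuous family of projections on a finite-dimensional real vector space has
a smooth nowhere vanishing section.
-/

namespace Pool.Agent.Helper29.SX

open Filter Topology

section

variable {E : Type} [NormedAddCommGroup E] [NormedSpace ℝ E] [FiniteDimensional ℝ E]

/-- Clamps: smooth maps which are the identity on larger and larger balls, with small steps. -/
theorem exists_clamps {δ : ℝ} (hδ : 0 < δ) :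
    ∃ (γ : ℕ → E → E) (σ : ℝ), 0 < σ ∧ (∀ j, ContDiff ℝ (⊤ : ℕ∞) (γ j)) ∧ (∀ p, γ 0 p = 0) ∧
      (∀ j p, ‖γ (j + 1) p - γ j p‖ ≤ δ) ∧ ∀ (j : ℕ) p, 0 < j → ‖p‖ ≤ j * σ → γ j p = p := by
  classical
  let ρ : ContDiffBump (0 : E) := ⟨1, 2, one_pos, one_lt_two⟩
  obtain ⟨L, hL⟩ := ρ.contDiff.lipschitzWith_of_hasCompactSupport ρ.hasCompactSupport (n := 1)
    one_ne_zero
  have hL0 : (0 : ℝ) ≤ L := L.2
  let σ : ℝ := δ / (8 * L + 2)
  have hσ : 0 < σ := by positivity
  have hσδ : (8 * L + 2) * σ = δ := by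
    show (8 * L + 2) * (δ / (8 * L + 2)) = δ
    field_simp
  let γ : ℕ → E → E := fun j p => if j = 0 then 0 else (ρ ((1 / (j * σ)) • p) : ℝ) • p
  have hγ0 : ∀ p, γ 0 p = 0 := fun p => if_pos rfl
  have hγ : ∀ j p, 0 < j → γ j p = (ρ ((1 / (j * σ)) • p) : ℝ) • p := fun j p hj =>
    if_neg hj.ne'
  have hρ0 : ∀ j : ℕ, 0 < j → ∀ p : E, 2 * (j * σ) ≤ ‖p‖ → ρ ((1 / (j * σ)) • p) = 0 := by
    intro j hj p hp
    have hj' : (0 : ℝ) < j * σ := by positivity
    refine ρ.zero_of_le_dist ?_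
    rw [dist_zero_right, norm_smul, Real.norm_of_nonneg (by positivity)]
    show (2 : ℝ) ≤ _
    rw [one_div, inv_mul_eq_div, le_div_iff₀ hj']
    exact hp
  refine ⟨γ, σ, hσ, ?_, hγ0, ?_, ?_⟩
  · intro j
    by_cases hj : j = 0
    · subst hj
      have : γ 0 = fun _ => 0 := funext hγ0
      rw [this]
      exact contDiff_const
    · have : γ j = fun p => (ρ ((1 / (j * σ)) • p) : ℝ) • p :=
        funext fun p => hγ j p (Nat.pos_of_ne_zero hj)
      rw [this]
      have h1 : ContDiff ℝ (⊤ : ℕ∞) (fun p : E => (ρ ((1 / (j * σ)) • p) : ℝ)) :=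
        ρ.contDiff.comp (contDiff_const_smul _)
      exact h1.smul contDiff_id
  · intro j p
    rcases Nat.eq_zero_or_pos j with rfl | hj
    · rw [hγ0, sub_zero, hγ _ _ (Nat.succ_pos 0)]
      by_cases hp : 2 * (((0 + 1 : ℕ) : ℝ) * σ) ≤ ‖p‖
      · rw [hρ0 (0 + 1) (Nat.succ_pos 0) p hp, zero_smul, norm_zero]
        exact hδ.le
      · push Not at hp
        rw [norm_smul, Real.norm_of_nonneg ρ.nonneg]
        have h1 : (ρ ((1 / (((0 + 1 : ℕ) : ℝ) * σ)) • p) : ℝ) ≤ 1 := ρ.le_one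
        have h2 : (ρ ((1 / (((0 + 1 : ℕ) : ℝ) * σ)) • p) : ℝ) * ‖p‖ ≤ 1 * ‖p‖ :=
          mul_le_mul_of_nonneg_right h1 (norm_nonneg _)
        push_cast at hp
        nlinarith [mul_nonneg hL0 hσ.le]
    · rw [hγ _ _ (Nat.succ_pos j), hγ _ _ hj, ← sub_smul, norm_smul]
      have hjr : (1 : ℝ) ≤ j := by exact_mod_cast hj
      by_cases hp : 2 * (((j + 1 : ℕ) : ℝ) * σ) ≤ ‖p‖
      · have hp' : 2 * ((j : ℝ) * σ) ≤ ‖p‖ := by
          refine le_trans ?_ hp
          push_cast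
          nlinarith
        rw [hρ0 (j + 1) (Nat.succ_pos j) p hp, hρ0 j hj p hp', sub_zero, norm_zero, zero_mul]
        exact hδ.le
      · push Not at hp
        have hj' : (0 : ℝ) < j * σ := by positivity
        have hj'' : (0 : ℝ) < ((j + 1 : ℕ) : ℝ) * σ := by positivity
        have h1 := hL.dist_le_mul ((1 / (((j + 1 : ℕ) : ℝ) * σ)) • p) ((1 / ((j : ℝ) * σ)) • p)
        rw [Real.dist_eq, dist_eq_norm, ← sub_smul, norm_smul] at h1
        have h2 : ‖(1 / (((j + 1 : ℕ) : ℝ) * σ) - 1 / ((j : ℝ) * σ) : ℝ)‖ =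
            1 / (j * (j + 1) * σ) := by
          have h3 : (1 / (((j + 1 : ℕ) : ℝ) * σ) - 1 / ((j : ℝ) * σ) : ℝ) =
              -(1 / (j * (j + 1) * σ)) := by
            push_cast
            field_simp
            ring
          rw [h3, norm_neg, Real.norm_of_nonneg (by positivity)]
        rw [h2] at h1
        rw [Real.norm_eq_abs]
        have h4 : |(ρ ((1 / (((j + 1 : ℕ) : ℝ) * σ)) • p) : ℝ) - ρ ((1 / ((j : ℝ) * σ)) • p)| *
            ‖p‖ ≤ L * (1 / (j * (j + 1) * σ) * ‖p‖) * ‖p‖ :=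
          mul_le_mul_of_nonneg_right h1 (norm_nonneg _)
        refine h4.trans ?_
        have h5 : ‖p‖ * ‖p‖ ≤ (2 * (((j + 1 : ℕ) : ℝ) * σ)) * (2 * (((j + 1 : ℕ) : ℝ) * σ)) :=
          mul_self_le_mul_self (norm_nonneg _) hp.le
        have h6 : L * (1 / (j * (j + 1) * σ) * ‖p‖) * ‖p‖ =
            (L * (1 / (j * (j + 1) * σ))) * (‖p‖ * ‖p‖) := by ring
        rw [h6]
        have h7 : (L * (1 / (j * (j + 1) * σ))) * (‖p‖ * ‖p‖) ≤ (L * (1 / (j * (j + 1) * σ))) *
            ((2 * (((j + 1 : ℕ) : ℝ) * σ)) * (2 * (((j + 1 : ℕ) : ℝ) * σ))) :=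
          mul_le_mul_of_nonneg_left h5 (by positivity)
        refine h7.trans ?_
        have h8 : (L * (1 / (j * (j + 1) * σ))) *
            ((2 * (((j + 1 : ℕ) : ℝ) * σ)) * (2 * (((j + 1 : ℕ) : ℝ) * σ))) =
            4 * L * σ * ((j + 1) / j) := by
          push_cast
          field_simp
          ring
        rw [h8]
        have h9 : ((j : ℝ) + 1) / j ≤ 2 := by
          rw [div_le_iff₀ (by linarith)]
          linarith
        have h10 : 4 * L * σ * (((j : ℝ) + 1) / j) ≤ 4 * L * σ * 2 :=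
          mul_le_mul_of_nonneg_left h9 (by positivity)
        nlinarith
  · intro j p hj hp
    rw [hγ _ _ hj]
    have hj' : (0 : ℝ) < j * σ := by positivity
    have h1 : (ρ ((1 / (j * σ)) • p) : ℝ) = 1 := by
      refine ρ.one_of_mem_closedBall ?_
      rw [mem_closedBall_zero_iff, norm_smul, Real.norm_of_nonneg (by positivity)]
      show _ ≤ (1 : ℝ)
      rw [one_div, inv_mul_eq_div, div_le_one hj']
      exact hp
    rw [h1, one_smul]

/-- **Discrete parallel transport.** -/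
theorem exists_section {V : Type} [NormedAddCommGroup V] [NormedSpace ℂ V]
    (P : E → V →L[ℂ] V) (hP : ContDiff ℝ (⊤ : ℕ∞) P) (hPP : ∀ p v, P p (P p v) = P p v)
    {δ : ℝ} (hδ : 0 < δ) (hu : ∀ p q, ‖p - q‖ ≤ δ → ‖P p - P q‖ ≤ 1 / 2)
    {v₀ : V} (hv₀ : v₀ ≠ 0) (hPv : P 0 v₀ = v₀) :
    ∃ f : E → V, ContDiff ℝ (⊤ : ℕ∞) f ∧ ∀ p, P p (f p) = f p ∧ f p ≠ 0 := by
  obtain ⟨γ, σ, hσ, hγs, hγ0, hγd, hγid⟩ := exists_clamps (E := E) hδ
  let g : ℕ → E → V := fun j => Nat.rec (fun _ => v₀) (fun j gj p => P (γ (j + 1) p) (gj p)) j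
  have hg0 : ∀ p, g 0 p = v₀ := fun p => rfl
  have hg1 : ∀ j p, g (j + 1) p = P (γ (j + 1) p) (g j p) := fun j p => rfl
  have hgs : ∀ j, ContDiff ℝ (⊤ : ℕ∞) (g j) := by
    intro j
    induction j with
    | zero => exact contDiff_const
    | succ j ih =>
      have h1 : ContDiff ℝ (⊤ : ℕ∞) fun p => P (γ (j + 1) p) := hP.comp (hγs (j + 1))
      have h2 : ContDiff ℝ (⊤ : ℕ∞) fun p => P (γ (j + 1) p) (g j p) := by
        have h3 : ContDiff ℝ (⊤ : ℕ∞) fun p =>
            (ContinuousLinearMap.restrictScalarsL ℂ V V ℝ ℝ) (P (γ (j + 1) p)) :=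
          (ContinuousLinearMap.contDiff _).comp h1
        exact h3.clm_apply ih
      exact h2
  have hgP : ∀ j p, P (γ j p) (g j p) = g j p := by
    intro j p
    cases j with
    | zero => rw [hγ0, hg0, hPv]
    | succ j => rw [hg1, hPP]
  have hgne : ∀ j p, g j p ≠ 0 := by
    intro j p
    induction j with
    | zero => exact hv₀
    | succ j ih =>
      intro h0
      rw [hg1] at h0
      have h1 : ‖(P (γ (j + 1) p) - P (γ j p)) (g j p)‖ ≤ 1 / 2 * ‖g j p‖ :=
        (ContinuousLinearMap.le_opNorm _ _).trans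
          (mul_le_mul_of_nonneg_right (hu _ _ (hγd j p)) (norm_nonneg _))
      rw [sub_apply, h0, hgP, zero_sub, norm_neg] at h1
      have h2 : 0 < ‖g j p‖ := norm_pos_iff.mpr ih
      linarith
  have hstab : ∀ (j : ℕ) (p : E), 0 < j → ‖p‖ ≤ j * σ → ∀ k, g (j + k) p = g j p := by
    intro j p hj hp k
    induction k with
    | zero => rfl
    | succ k ih =>
      have h1 : γ (j + k) p = p := by
        refine hγid _ _ (by omega) (hp.trans ?_)
        push_cast
        nlinarith [(Nat.cast_nonneg k : (0 : ℝ) ≤ k)]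
      have h2 : γ (j + k + 1) p = p := by
        refine hγid _ _ (by omega) (hp.trans ?_)
        push_cast
        nlinarith [(Nat.cast_nonneg k : (0 : ℝ) ≤ k)]
      have h3 := hgP (j + k) p
      rw [h1] at h3
      show g (j + k + 1) p = g j p
      rw [hg1, h2, h3, ih]
  let J : E → ℕ := fun p => ⌈‖p‖ / σ⌉₊ + 1
  have hJ : ∀ p, ‖p‖ ≤ J p * σ := by
    intro p
    have h1 := Nat.le_ceil (‖p‖ / σ)
    rw [div_le_iff₀ hσ] at h1
    refine h1.trans ?_
    show _ ≤ ((⌈‖p‖ / σ⌉₊ + 1 : ℕ) : ℝ) * σ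
    push_cast
    nlinarith
  have hJpos : ∀ p, 0 < J p := fun p => Nat.succ_pos _
  have hloc : ∀ (j : ℕ) (p : E), 0 < j → ‖p‖ ≤ j * σ → g (J p) p = g j p := by
    intro j p hj hp
    rcases le_total j (J p) with h | h
    · obtain ⟨k, hk⟩ := Nat.exists_eq_add_of_le h
      rw [hk]
      exact hstab j p hj hp k
    · obtain ⟨k, hk⟩ := Nat.exists_eq_add_of_le h
      rw [hk]
      exact (hstab (J p) p (hJpos p) (hJ p) k).symm
  refine ⟨fun p => g (J p) p, ?_, fun p => ⟨?_, hgne (J p) p⟩⟩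
  · rw [contDiff_iff_contDiffAt]
    intro p
    have h1 : ∀ᶠ q in 𝓝 p, ‖q‖ < (J p + 1 : ℕ) * σ := by
      refine continuous_norm.continuousAt.eventually_lt_const ?_
      refine (hJ p).trans_lt ?_
      push_cast
      nlinarith
    refine (hgs (J p + 1)).contDiffAt.congr_of_eventuallyEq ?_
    filter_upwards [h1] with q hq
    exact hloc _ _ (Nat.succ_pos _) hq.le
  · have h1 := hgP (J p) p
    rwa [hγid _ _ (hJpos p) (hJ p)] at h1

end

end Pool.Agent.Helper29.SX
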